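import Pool.Agent.Helper98.EY.StmtsC

/-!
# Redistribution in several intervals at the same time
-/

namespace Pool.Agent.Helper98.EX

open Finset Filter
open scoped Topology

theorem msr_cnt_congr {N : ℕ} {η ξ : Cfg N} {A B : ℕ}
    (h : ∀ x, A ≤ x → x < B → occ η x = occ ξ x) : cnt η A B = cnt ξ A B := by
  unfold cnt
  apply Finset.sum_congr rfl
  intro i hi
  rw [Finset.mem_Ico] at hi
  rw [h i hi.1 hi.2]

theorem msr_mono {N p : ℕ} {bb : ℕ → ℕ} (hbl : BL N p bb) :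
    ∀ i d, i + d ≤ p + 1 → bb i ≤ bb (i + d) := by
  intro i d
  induction d with
  | zero => intro _; exact le_rfl
  | succ d ih =>
    intro h
    have h1 := ih (by omega)
    have h2 := hbl.gap (i + d) (by omega)
    have h3 : (0 : ℝ) ≤ (N : ℝ) ^ (1 / 2 : ℝ) := Real.rpow_nonneg (Nat.cast_nonneg N) _
    have h4 : (bb (i + d) : ℝ) ≤ bb (i + d + 1) := by linarith
    have h5 : bb (i + d) ≤ bb (i + d + 1) := by exact_mod_cast h4
    exact h1.trans h5

theorem msr_mono2 {N p : ℕ} {bb : ℕ → ℕ} (hbl : BL N p bb) {i j : ℕ} (hij : i ≤ j)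
    (hj : j ≤ p + 1) : bb i ≤ bb j := by
  have := msr_mono hbl i (j - i) (by omega)
  rwa [show i + (j - i) = j by omega] at this

theorem msr_leN {N p : ℕ} {bb : ℕ → ℕ} (hbl : BL N p bb) {j : ℕ}
    (hj : j ≤ p + 1) : bb j ≤ N := by
  have := msr_mono2 hbl hj le_rfl
  rwa [hbl.bN] at this

theorem msr_loc {N p : ℕ} {bb : ℕ → ℕ} (hbl : BL N p bb) (x : ℕ) :
    ∀ j, j ≤ p + 1 → x < bb j → ∃ i, i ≤ p ∧ bb i ≤ x ∧ x < bb (i + 1) := by
  intro j
  induction j with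
  | zero => intro _ h; rw [hbl.b0] at h; omega
  | succ j ih =>
    intro hj hx
    by_cases h : x < bb j
    · exact ih (by omega) h
    · exact ⟨j, by omega, by omega, hx⟩

theorem msr_uniq {N p : ℕ} {bb : ℕ → ℕ} (hbl : BL N p bb) {x i j : ℕ} (hi : i ≤ p) (hj : j ≤ p)
    (h1 : bb i ≤ x) (h2 : x < bb (i + 1)) (h3 : bb j ≤ x) (h4 : x < bb (j + 1)) : i = j := by
  rcases lt_trichotomy i j with h | h | h
  · have := msr_mono2 hbl (show i + 1 ≤ j by omega) (by omega)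
    omega
  · exact h
  · have := msr_mono2 hbl (show j + 1 ≤ i by omega) (by omega)
    omega

theorem msr_heights {N p : ℕ} {bb h : ℕ → ℕ} (hbl : BL N p bb) (hp : h (p + 1) = 0)
    (hm : ∀ i, i ≤ p → h (i + 1) ≤ h i) {η : Cfg N}
    (hc : ∀ i, i ≤ p → cnt η (bb i) (bb (i + 1)) = h i - h (i + 1)) :
    ∀ d i, i + d = p + 1 → ht η (bb i) = h i := by
  intro d
  induction d with
  | zero =>
    intro i hi
    rw [Nat.add_zero] at hi
    rw [hi, hbl.bN, ht_ge le_rfl, hp]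
  | succ d ih =>
    intro i hi
    have h1 := ih (i + 1) (by omega)
    have h2 := ht_cnt η (msr_mono2 hbl (show i ≤ i + 1 by omega) (by omega))
      (msr_leN hbl (show i + 1 ≤ p + 1 by omega))
    have h3 := hc i (by omega)
    have h4 := hm i (by omega)
    omega

theorem msr_counts {N p : ℕ} {bb h : ℕ → ℕ} (hbl : BL N p bb) (hp : h (p + 1) = 0)
    {η : Cfg N} (hh : ∀ i, i ≤ p → ht η (bb i) = h i) :
    ∀ i, i ≤ p → cnt η (bb i) (bb (i + 1)) = h i - h (i + 1) := by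
  intro i hi
  have h2 := ht_cnt η (msr_mono2 hbl (show i ≤ i + 1 by omega) (by omega))
    (msr_leN hbl (show i + 1 ≤ p + 1 by omega))
  have h3 := hh i hi
  have h4 : ht η (bb (i + 1)) = h (i + 1) := by
    by_cases h5 : i + 1 ≤ p
    · exact hh (i + 1) h5
    · have h6 : i + 1 = p + 1 := by omega
      rw [h6, hbl.bN, ht_ge le_rfl, hp]
  omega

open Classical in
/-- replace the configuration by `ζ i` in the intervals of `I0` -/
noncomputable def msrP {N : ℕ} (bb : ℕ → ℕ) (I0 : Finset ℕ) (ζ : ℕ → Cfg N) (η : Cfg N) : Cfg N :=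
  fun x => if h : ∃ i, i ∈ I0 ∧ bb i ≤ x.val ∧ x.val < bb (i + 1) then
    occ (ζ (Classical.choose h)) x.val else η x

theorem msrP_in {N p : ℕ} {bb : ℕ → ℕ} (hbl : BL N p bb) {I0 : Finset ℕ}
    (hI : ∀ i ∈ I0, i ≤ p) (ζ : ℕ → Cfg N) (η : Cfg N) {i x : ℕ} (hi : i ∈ I0)
    (h1 : bb i ≤ x) (h2 : x < bb (i + 1)) : occ (msrP bb I0 ζ η) x = occ (ζ i) x := by
  have hxN : x < N := h2.trans_le (msr_leN hbl (by have := hI i hi; omega))
  rw [occ_lt hxN]
  unfold msrP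
  have hex : ∃ i, i ∈ I0 ∧ bb i ≤ (⟨x, hxN⟩ : Fin N).val ∧ (⟨x, hxN⟩ : Fin N).val < bb (i + 1) :=
    ⟨i, hi, h1, h2⟩
  rw [dif_pos hex]
  have hs := Classical.choose_spec hex
  have he : Classical.choose hex = i :=
    msr_uniq hbl (hI _ hs.1) (hI i hi) hs.2.1 hs.2.2 h1 h2
  rw [he]

theorem msrP_out {N : ℕ} {bb : ℕ → ℕ} {I0 : Finset ℕ} (ζ : ℕ → Cfg N) (η : Cfg N) {x : ℕ}
    (hx : ∀ i ∈ I0, x < bb i ∨ bb (i + 1) ≤ x) : occ (msrP bb I0 ζ η) x = occ η x := by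
  by_cases hxN : x < N
  · rw [occ_lt hxN, occ_lt hxN]
    unfold msrP
    rw [dif_neg]
    rintro ⟨i, hi, h1, h2⟩
    have h1' : bb i ≤ x := h1
    have h2' : x < bb (i + 1) := h2
    rcases hx i hi with h | h <;> omega
  · rw [occ_ge (by omega), occ_ge (by omega)]

theorem msr_out {N p : ℕ} {bb : ℕ → ℕ} (hbl : BL N p bb) {I0 : Finset ℕ}
    (hI : ∀ i ∈ I0, i ≤ p) {i x : ℕ} (hi : i ∉ I0) (hip : i ≤ p)
    (h1 : bb i ≤ x) (h2 : x < bb (i + 1)) : ∀ j ∈ I0, x < bb j ∨ bb (j + 1) ≤ x := by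
  intro j hj
  by_contra hc
  push Not at hc
  have := msr_uniq hbl hip (hI j hj) h1 h2 hc.1 hc.2
  rw [this] at hi
  exact hi hj

theorem msr_Srt_congr {N : ℕ} {A B x : ℕ} {η ξ : Cfg N} (hQ : A + QQ N ≤ B) (hx : x ≤ B)
    (h : ∀ y, A ≤ y → y < B → occ η y = occ ξ y) (hs : Srt N A B x η) : Srt N A B x ξ := by
  refine ⟨?_, ?_, ?_⟩
  · intro y h1 h2
    rw [← h y h1 (by omega)]
    exact hs.1 y h1 h2
  · intro y h1 h2
    rw [← h y (by omega) h1]
    exact hs.2.1 y h1 h2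
  · have h3 : cnt ξ A x = cnt η A x :=
      msr_cnt_congr (fun y h1 h2 => (h y h1 (by omega)).symm)
    rw [h3]
    exact hs.2.2

theorem msr_num : ∃ N0 : ℕ, ∀ N : ℕ, N0 ≤ N → 1 ≤ Real.log N ∧
    Real.log N ^ 960 ≤ (N : ℝ) ^ (3 / 4 : ℝ) ∧
    (Real.log N ^ 466 + 1) * (N : ℝ) ^ (-6 : ℝ) ≤ (N : ℝ) ^ (-5 : ℝ) / 2 := by
  have hcast : Tendsto (fun n : ℕ => (n : ℝ)) atTop atTop := tendsto_natCast_atTop_atTop
  have hlog : Tendsto (fun n : ℕ => Real.log (n : ℝ)) atTop atTop :=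
    Real.tendsto_log_atTop.comp hcast
  have e1 : ∀ᶠ n : ℕ in atTop, (1 : ℝ) ≤ Real.log n := hlog.eventually_ge_atTop 1
  have e2 : ∀ᶠ n : ℕ in atTop, Real.log (n : ℝ) ^ 960 ≤ (n : ℝ) ^ (3 / 4 : ℝ) := by
    have h := (isLittleO_log_rpow_rpow_atTop (960 : ℝ) (show (0 : ℝ) < 3 / 4 by norm_num))
    have h2 := hcast.eventually (h.bound (show (0 : ℝ) < 1 by norm_num))
    filter_upwards [h2, e1] with n hn h1
    have h3 : (0 : ℝ) ≤ (n : ℝ) ^ (3 / 4 : ℝ) := Real.rpow_nonneg (Nat.cast_nonneg n) _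
    rw [Real.norm_of_nonneg h3, one_mul] at hn
    have h4 := (le_abs_self _).trans hn
    have h5 : Real.log (n : ℝ) ^ (960 : ℝ) = Real.log (n : ℝ) ^ 960 := by
      rw [← Real.rpow_natCast]; norm_num
    rw [h5] at h4
    exact h4
  have e3 : ∀ᶠ n : ℕ in atTop, Real.log (n : ℝ) ^ 466 ≤ (1 / 4) * (n : ℝ) := by
    have h := (Real.isLittleO_pow_log_id_atTop (n := 466)).bound (show (0 : ℝ) < 1 / 4 by norm_num)
    have h2 := hcast.eventually h
    filter_upwards [h2] with n hn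
    simp only [id] at hn
    rw [Real.norm_of_nonneg (Nat.cast_nonneg n)] at hn
    exact (le_abs_self _).trans hn
  have e4 : ∀ᶠ n : ℕ in atTop, (4 : ℝ) ≤ n := hcast.eventually_ge_atTop 4
  obtain ⟨N0, hN0⟩ := eventually_atTop.1 ((e1.and e2).and (e3.and e4))
  refine ⟨N0, fun N hN => ?_⟩
  obtain ⟨⟨h1, h2⟩, h3, h4⟩ := hN0 N hN
  refine ⟨h1, h2, ?_⟩
  have hpos : (0 : ℝ) < N := by linarith
  have h5 : (N : ℝ) ^ (-5 : ℝ) = (N : ℝ) * (N : ℝ) ^ (-6 : ℝ) := by
    rw [show (-5 : ℝ) = 1 + (-6) by norm_num, Real.rpow_add hpos, Real.rpow_one]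
  have h6 : (0 : ℝ) < (N : ℝ) ^ (-6 : ℝ) := Real.rpow_pos_of_pos hpos _
  rw [h5]
  nlinarith

/-- values near the left end of an interval between barriers -/
theorem msr_EndL {N w p : ℕ} {C1 : ℝ} {bb : ℕ → ℕ} {r l : ℕ → ℝ} (hE : BE N r l w C1 p bb)
    (hn : Real.log N ^ 960 ≤ (N : ℝ) ^ (3 / 4 : ℝ)) {i : ℕ} (hi : i ≤ p) : EndL N r l (bb i) := by
  rcases Nat.eq_zero_or_pos i with h0 | h0
  · rw [h0, hE.bl.b0]; exact hE.e0
  · have hs := hE.sur i h0 hi
    intro z y h1 h2 h3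
    exact ⟨(hs.rp z y h1 h2 h3).trans hn, fun h4 => (hs.rh z y h4 h2 h3).trans hn⟩

/-- values near the right end of an interval between barriers -/
theorem msr_EndR {N w p : ℕ} {C1 : ℝ} {bb : ℕ → ℕ} {r l : ℕ → ℝ} (hE : BE N r l w C1 p bb)
    (hn : Real.log N ^ 960 ≤ (N : ℝ) ^ (3 / 4 : ℝ)) {i : ℕ} (hi : i ≤ p) :
    EndR N r l (bb (i + 1)) := by
  by_cases h0 : i + 1 ≤ p
  · have hs := hE.sur (i + 1) (by omega) h0
    intro z y h1 h2 h3
    exact ⟨fun h4 => (hs.lh z y h3 h4 h1 h2).trans hn, fun h4 => (hs.lp z y h3 h1 h4).trans hn⟩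
  · rw [show i + 1 = p + 1 by omega, hE.bl.bN]; exact hE.eN

theorem st_MSR (hRED : ST_RED) (hPAR : ST_PAR) : ST_MSR := by
  intro C1 hC1
  obtain ⟨N1, hN1⟩ := hRED C1 hC1
  obtain ⟨N2, hN2⟩ := msr_num
  refine ⟨max N1 N2, ?_⟩
  intro N p w k n bb h I0 r l hN hE hk0 hkN hR hI
  obtain ⟨hL1, hL2, hL3⟩ := hN2 N (le_trans (le_max_right _ _) hN)
  have hRED' := hN1 N
  have hNN1 : N1 ≤ N := le_trans (le_max_left _ _) hN
  have hbl := hE.bl
  have hadm := hE.ge.adm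
  have hIp : ∀ i ∈ I0, i ≤ p := fun i hi => (hI i hi).1
  obtain ⟨hp1, hroom⟩ := hR
  have hL243 : (0 : ℝ) ≤ Real.log N ^ 243 := by positivity
  -- monotone heights
  have hm : ∀ i, i ≤ p → h (i + 1) ≤ h i := by
    intro i hi
    have := (hroom i hi).1
    have h2 : (h (i + 1) : ℝ) ≤ h i := by linarith
    exact_mod_cast h2
  have hbm : ∀ i, i ≤ p → bb i ≤ bb (i + 1) := fun i hi =>
    msr_mono2 hbl (by omega) (by omega)
  have hgap : ∀ i, i ≤ p → h i - h (i + 1) ≤ bb (i + 1) := by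
    intro i hi
    have h1 := (hroom i hi).2
    have h2 : (h i : ℝ) ≤ h (i + 1) + bb (i + 1) := by
      have : (0 : ℝ) ≤ bb i := Nat.cast_nonneg _
      linarith
    have h3 : h i ≤ h (i + 1) + bb (i + 1) := by exact_mod_cast h2
    omega
  have hxr : ∀ i, i ≤ p → ((xi bb h i : ℕ) : ℝ) = bb (i + 1) - ((h i : ℝ) - h (i + 1)) := by
    intro i hi
    unfold xi
    rw [Nat.cast_sub (hgap i hi), Nat.cast_sub (hm i hi)]
  have hBx : ∀ i, i ≤ p → bb (i + 1) - xi bb h i = h i - h (i + 1) := by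
    intro i hi
    have := hgap i hi
    unfold xi
    omega
  have hxB : ∀ i, xi bb h i ≤ bb (i + 1) := by
    intro i
    unfold xi
    omega
  have hQ : ∀ i, i ≤ p → bb i + QQ N ≤ bb (i + 1) := by
    intro i hi
    have h1 := hroom i hi
    have h2 : (QQ N : ℝ) ≤ Real.log N ^ 241 + 1 := by
      unfold QQ
      exact (Nat.ceil_lt_add_one (by positivity)).le
    have h3 : Real.log N ^ 241 ≤ Real.log N ^ 243 := pow_le_pow_right₀ hL1 (by norm_num)
    have h4 : (1 : ℝ) ≤ Real.log N ^ 243 := one_le_pow₀ hL1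
    have h5 : (bb i : ℝ) + QQ N ≤ bb (i + 1) := by linarith [h1.1, h1.2]
    exact_mod_cast h5
  -- the data of RED
  have hex : ∀ i, ∃ (σ : ℕ → Finset ℕ) (ζ : Cfg N), i ∈ I0 →
      (∀ t, σ t ⊆ Finset.Ioo (bb i) (bb (i + 1))) ∧
      cnt ζ (bb i) (bb (i + 1)) = bb (i + 1) - xi bb h i ∧
      (∀ η : Cfg N, cnt η (bb i) (bb (i + 1)) = bb (i + 1) - xi bb h i →
        cnt η (bb i) (xi bb h i) ≤ n →
        ∀ y, bb i ≤ y → y ≤ bb (i + 1) → cnt η (bb i) y ≤ cnt ζ (bb i) y) ∧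
      ∀ η : Cfg N, (∀ y, bb i ≤ y → y < bb (i + 1) → occ η y = occ ζ y) →
        pr r l σ (3 * ta3 N * (n + ⌈Real.log N ^ 8⌉₊))
          {ξ | ¬ (cnt ξ (bb i) (bb (i + 1)) = bb (i + 1) - xi bb h i ∧
            Srt N (bb i) (bb (i + 1)) (xi bb h i) ξ)} η ≤ (N : ℝ) ^ (-6 : ℝ) := by
    intro i
    by_cases hi : i ∈ I0
    · have hip := hIp i hi
      have h1 := hroom i hip
      have h2 := (hI i hi).2
      have h3 := hxr i hip
      obtain ⟨σ, ζ, hz⟩ := hRED' w (bb i) (bb (i + 1)) (xi bb h i) n r l hNN1 hE.ge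
        (msr_leN hbl (by omega)) (hE.nohp i hip) (msr_EndL hE hL2 hip) (msr_EndR hE hL2 hip)
        (by rw [h3]; linarith [h1.1, h1.2]) (by rw [h3]; linarith [h1.1, h1.2])
        (by rw [h3]; linarith [h2.1, h2.2]) (by rw [h3]; linarith [h2.1, h2.2])
      exact ⟨σ, ζ, fun _ => hz⟩
    · exact ⟨fun _ => ∅, fun _ => false, fun h' => absurd h' hi⟩
  choose σ ζ hσζ using hex
  refine ⟨fun t => I0.biUnion (fun i => σ i t), ?_, ?_⟩
  · intro t x hx
    rw [Finset.mem_biUnion] at hx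
    obtain ⟨i, hi, hx⟩ := hx
    have h1 := (hσζ i hi).1 t hx
    rw [Finset.mem_Ioo] at h1
    have h2 := msr_leN hbl (show i + 1 ≤ p + 1 by have := hIp i hi; omega)
    unfold full
    rw [Finset.mem_Ico]
    omega
  intro ξ hξ
  obtain ⟨hξk, η, hηW, hηξ⟩ := hξ
  have hηh : ∀ i, i ≤ p → ht η (bb i) = h i := fun i hi => (hηW i hi).1
  have hηc := msr_counts hbl hp1 hηh
  -- the lowered configuration
  set η' : Cfg N := msrP bb I0 ζ η with hη'
  have hin : ∀ i ∈ I0, ∀ x, bb i ≤ x → x < bb (i + 1) → occ η' x = occ (ζ i) x :=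
    fun i hi x h1 h2 => msrP_in hbl hIp ζ η hi h1 h2
  have hout : ∀ i, i ≤ p → i ∉ I0 → ∀ x, bb i ≤ x → x < bb (i + 1) → occ η' x = occ η x :=
    fun i hip hi x h1 h2 => msrP_out ζ η (msr_out hbl hIp hi hip h1 h2)
  have hη'c : ∀ i, i ≤ p → cnt η' (bb i) (bb (i + 1)) = h i - h (i + 1) := by
    intro i hip
    by_cases hi : i ∈ I0
    · rw [msr_cnt_congr (hin i hi), (hσζ i hi).2.1, hBx i hip]
    · rw [msr_cnt_congr (hout i hip hi)]
      exact hηc i hip
  have hη'h : ∀ i, i ≤ p + 1 → ht η' (bb i) = h i := fun i hi =>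
    msr_heights hbl hp1 hm hη'c (p + 1 - i) i (by omega)
  have hη'0 : ht η' 0 = k := by
    have := hη'h 0 (by omega)
    rw [hbl.b0] at this
    rw [this, hk0]
  have hle1 : hle 0 η' η := by
    intro x
    rw [Nat.add_zero]
    by_cases hx : x < N
    · obtain ⟨i, hip, h1, h2⟩ := msr_loc hbl x (p + 1) le_rfl (by rw [hbl.bN]; exact hx)
      have h3 := ht_cnt η h1 hx.le
      have h4 := ht_cnt η' h1 hx.le
      have h5 := hηh i hip
      have h6 := hη'h i (by omega)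
      have h7 : cnt η (bb i) x ≤ cnt η' (bb i) x := by
        by_cases hi : i ∈ I0
        · have h8 : cnt η' (bb i) x = cnt (ζ i) (bb i) x :=
            msr_cnt_congr (fun y g1 g2 => hin i hi y g1 (by omega))
          rw [h8]
          exact (hσζ i hi).2.2.1 η (by rw [hηc i hip, hBx i hip]) ((hηW i hip).2.1 hi) x h1 h2.le
        · exact (msr_cnt_congr (fun y g1 g2 => (hout i hip hi y g1 (by omega)).symm)).le
      omega
    · rw [ht_ge (by omega)]
      exact Nat.zero_le _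
  have hle2 : hle 0 η' ξ := by
    have := hle_trans hle1 hηξ
    exact this
  -- monotonicity
  have hmon : pr r l (fun t => I0.biUnion (fun i => σ i t)) (3 * ta3 N * (n + ⌈Real.log N ^ 8⌉₊))
      (Up k (Wcl N p bb h ∅ 0))ᶜ ξ ≤
      pr r l (fun t => I0.biUnion (fun i => σ i t)) (3 * ta3 N * (n + ⌈Real.log N ^ 8⌉₊))
      (Up k (Wcl N p bb h ∅ 0))ᶜ η' := by
    rw [pr_compl, pr_compl]
    have hinc : Inc k (ind (Up k (Wcl N p bb h ∅ 0) : Set (Cfg N))) := by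
      apply pr_Inc_ind
      intro a b _ hb hab ha
      obtain ⟨_, c, hc, hca⟩ := ha
      exact ⟨hb, c, hc, hle_trans hca hab⟩
    have := ev_inc hadm hinc (fun t => I0.biUnion (fun i => σ i t))
      (3 * ta3 N * (n + ⌈Real.log N ^ 8⌉₊)) η' ξ hη'0 hξk hle2
    unfold pr
    linarith
  refine hmon.trans ?_
  -- parallel windows
  have hpar := hPAR N r l I0 bb (fun i => bb (i + 1)) σ (3 * ta3 N * (n + ⌈Real.log N ^ 8⌉₊))
    (fun i => {ξ | cnt ξ (bb i) (bb (i + 1)) = bb (i + 1) - xi bb h i ∧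
            Srt N (bb i) (bb (i + 1)) (xi bb h i) ξ}) (fun _ => (N : ℝ) ^ (-6 : ℝ)) η' hadm
    (fun i hi => ⟨hbm i (hIp i hi), msr_leN hbl (by have := hIp i hi; omega)⟩)
    (by
      intro i hi j hj hij
      have h1 := hIp i hi
      have h2 := hIp j hj
      rcases lt_or_gt_of_ne hij with h3 | h3
      · left
        exact msr_mono2 hbl (by omega) (by omega)
      · right
        exact msr_mono2 hbl (by omega) (by omega))
    (fun i hi t => (hσζ i hi).1 t)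
    (by
      intro i hi a b hab
      have hip := hIp i hi
      constructor
      · rintro ⟨h1, h2⟩
        refine ⟨?_, msr_Srt_congr (hQ i hip) (hxB i) hab h2⟩
        rw [← msr_cnt_congr hab]
        exact h1
      · rintro ⟨h1, h2⟩
        have hba : ∀ x, bb i ≤ x → x < bb (i + 1) → occ b x = occ a x :=
          fun x g1 g2 => (hab x g1 g2).symm
        refine ⟨?_, msr_Srt_congr (hQ i hip) (hxB i) hba h2⟩
        rw [← msr_cnt_congr hba]
        exact h1)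
    (fun i hi => (hσζ i hi).2.2.2 η' (fun y h1 h2 => hin i hi y h1 h2))
  refine (pr_mono hadm _ _ ?_ η').trans (hpar.trans ?_)
  · intro b hb hgood
    apply hb
    obtain ⟨hg1, hg2⟩ := hgood
    have hbout : ∀ i, i ≤ p → i ∉ I0 → ∀ x, bb i ≤ x → x < bb (i + 1) → occ η x = occ b x := by
      intro i hip hi x h1 h2
      rw [hg2 x (msr_out hbl hIp hi hip h1 h2), hout i hip hi x h1 h2]
    have hbc : ∀ i, i ≤ p → cnt b (bb i) (bb (i + 1)) = h i - h (i + 1) := by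
      intro i hip
      by_cases hi : i ∈ I0
      · have := (hg1 i hi).2
        rw [this]
        exact hη'c i hip
      · rw [← msr_cnt_congr (hbout i hip hi)]
        exact hηc i hip
    have hbh : ∀ i, i ≤ p + 1 → ht b (bb i) = h i := fun i hi =>
      msr_heights hbl hp1 hm hbc (p + 1 - i) i (by omega)
    have hb0 : ht b 0 = k := by
      have := hbh 0 (by omega)
      rw [hbl.b0] at this
      rw [this, hk0]
    refine ⟨hb0, b, ?_, hle_refl b⟩
    intro i hip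
    refine ⟨hbh i (by omega), fun h' => absurd h' (Finset.notMem_empty i), fun _ => ?_⟩
    by_cases hi : i ∈ I0
    · exact (hg1 i hi).1.2
    · exact msr_Srt_congr (hQ i hip) (hxB i) (hbout i hip hi) ((hηW i hip).2.2 hi)
  · rw [Finset.sum_const, nsmul_eq_mul]
    have hcard : (I0.card : ℝ) ≤ Real.log N ^ 466 + 1 := by
      have h1 : I0 ⊆ Finset.range (p + 1) := by
        intro i hi
        rw [Finset.mem_range]
        have := hIp i hi
        omega
      have h2 := Finset.card_le_card h1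
      rw [Finset.card_range] at h2
      have h3 : (I0.card : ℝ) ≤ p + 1 := by exact_mod_cast h2
      linarith [hE.card]
    have h6 : (0 : ℝ) ≤ (N : ℝ) ^ (-6 : ℝ) := Real.rpow_nonneg (Nat.cast_nonneg N) _
    exact (mul_le_mul_of_nonneg_right hcard h6).trans hL3

end Pool.Agent.Helper98.EX
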